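import Pool.Agent.helper91.ADV.SpecX
import Pool.Agent.helper91.ADV.WCR

/-!
# ADV, row ALC: the alternating levels for the first `u` bits
-/

set_option autoImplicit false

namespace Pool.Agent.ADV

open Finset Pool.Agent.helper38.Neg Pool.Agent.helper55.NT Pool.Agent.LNB

theorem ALC (h1 : ALF_stmt) : ALC_stmt := by
  intro n s u r L C o hL
  have hcG : HasCost (fun y : Fin (n + n) → Bool => C.val (y ∘ Fin.castAdd n) o) s := by
    obtain ⟨L, hL1, hL2, hL3⟩ := Circuit.toChain C
    exact HasCost.rename (Fin.castAdd n) (f := fun z => C.val z o) ⟨L, hL1, hL2.le, hL3 o⟩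
  obtain ⟨L1, g1, g2, g3⟩ := hcG
  obtain ⟨C1, hC1⟩ := g1.toCircuit
  obtain ⟨o1, ho1⟩ := hC1 _ g3
  obtain ⟨L', q', i1, i2, i3, i4, i5⟩ := h1 (n + n) L1.length r (L.map (addRightEmbedding (n - min u n))) C1 o1
    (by rw [Finset.card_map, hL]) [] 0 SL.nil
    (fun f hf => absurd hf (Set.notMem_empty f))
  obtain ⟨L2, k1, k2, k3⟩ := LN.TTR n u q' L' i1
  obtain ⟨C2, ⟨S, hS1, hS2⟩, l2⟩ := LN.TSC n u q' L2 k1
  obtain ⟨k, hk⟩ := l2 _ (k3 _ (i5 _ rfl))
  refine ⟨L2.length, ?_, C2, k, ⟨S, by omega, hS2⟩, ?_⟩
  · have e1 : 2 ^ (r + 1) * (2 * (n + n + 2) ^ 3 + 2 * L1.length + 10) ≤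
        2 ^ (r + 1) * (2 * (2 * n + 2) ^ 3 + 2 * s + 10) := by
      apply Nat.mul_le_mul_left
      have e2 : n + n + 2 = 2 * n + 2 := by omega
      rw [e2]
      omega
    simp only [List.length_nil, zero_add] at i3
    omega
  · intro z
    rw [hk z]
    have hw := WCR_wt u n z
    have hz : C1.val (LN.io u z) o1 = C.val z o := by
      rw [ho1 (LN.io u z)]
      have e : LN.io u z ∘ Fin.castAdd n = z := by
        funext i
        unfold LN.io
        simp
      rw [e]
    unfold alt altu
    simp only [hw, hz]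
    have a1 : (wtu u z + (n - min u n) ∈ L.map (addRightEmbedding (n - min u n))) ↔ wtu u z ∈ L := by
      rw [Finset.mem_map]
      constructor
      · rintro ⟨a, ha, hb⟩
        rw [addRightEmbedding_apply] at hb
        have : a = wtu u z := by omega
        rwa [← this]
      · intro h
        exact ⟨_, h, rfl⟩
    have a2 : ((L.map (addRightEmbedding (n - min u n))).filter fun l => l < wtu u z + (n - min u n)).card =
        (L.filter fun l => l < wtu u z).card := by
      rw [Finset.filter_map, Finset.card_map]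
      congr 1
      apply Finset.filter_congr
      intro a _
      simp only [Function.comp_apply, addRightEmbedding_apply]
      omega
    simp only [a1, a2]

end Pool.Agent.ADV
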