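import Pool.Agent.helper91.ADV.SpecX

/-!
# ADV, row ALG: descents and alternation
-/

set_option autoImplicit false

namespace Pool.Agent.ADV

open Finset Pool.Agent.helper38.Neg Pool.Agent.helper55.NT Pool.Agent.LNB

theorem ALG_succ (P : ℕ → Prop) [DecidablePred P] (N : ℕ) :
    ((range (N + 1)).filter P).card = ((range N).filter P).card + if P N then 1 else 0 := by
  rw [Finset.range_add_one, Finset.filter_insert]
  split_ifs with h
  · rw [Finset.card_insert_of_notMem (by simp)]
  · rw [add_zero]

/-- the invariant -/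
theorem ALG_inv (v : ℕ → Bool) (N : ℕ) (hN : 1 ≤ N) :
    ((range N).filter fun i => (v i = true ↔ i % 2 = 0)).card +
      ((range N).filter fun i => (v i = true ↔ i % 2 = 1)).card = N ∧
    (N % 2 = 0 → 2 * ((range N).filter fun i => (v i = true ↔ i % 2 = 0)).card ≤
        N + 2 * ((range (N - 1)).filter fun i => v i = true ∧ v (i + 1) = false).card ∧
      N ≤ 2 * ((range N).filter fun i => (v i = true ↔ i % 2 = 0)).card +
        2 * ((range (N - 1)).filter fun i => v i = true ∧ v (i + 1) = false).card + 2 * if v (N - 1) = true then 1 else 0) ∧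
    (N % 2 = 1 → 2 * ((range N).filter fun i => (v i = true ↔ i % 2 = 0)).card + 1 ≤
        N + 2 * ((range (N - 1)).filter fun i => v i = true ∧ v (i + 1) = false).card + 2 * (if v (N - 1) = true then 1 else 0) ∧
      N ≤ 2 * ((range N).filter fun i => (v i = true ↔ i % 2 = 0)).card +
        2 * ((range (N - 1)).filter fun i => v i = true ∧ v (i + 1) = false).card + 1) := by
  induction N, hN using Nat.le_induction with
  | base =>
    rw [ALG_succ, ALG_succ]
    by_cases h : v 0 = true <;> simp [h]
  | succ n hn ih =>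
    obtain ⟨k, rfl⟩ : ∃ k, n = k + 1 := ⟨n - 1, by omega⟩
    rw [ALG_succ (fun i => (v i = true ↔ i % 2 = 0)) (k + 1),
      ALG_succ (fun i => (v i = true ↔ i % 2 = 1)) (k + 1)]
    simp only [Nat.add_sub_cancel] at ih ⊢
    rw [ALG_succ (fun i => v i = true ∧ v (i + 1) = false) k]
    obtain ⟨i0, i1, i2⟩ := ih
    generalize ((range (k + 1)).filter fun i => (v i = true ↔ i % 2 = 0)).card = a0 at *
    generalize ((range (k + 1)).filter fun i => (v i = true ↔ i % 2 = 1)).card = a1 at *
    generalize ((range k).filter fun i => v i = true ∧ v (i + 1) = false).card = d at *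
    rcases Bool.eq_false_or_eq_true (v k) with h1 | h1 <;>
      rcases Bool.eq_false_or_eq_true (v (k + 1)) with h2 | h2 <;>
      rcases Nat.mod_two_eq_zero_or_one (k + 1) with h3 | h3 <;>
      simp [h1, h2, h3] at i1 i2 ⊢ <;> omega

theorem ALG : ALG_stmt := by
  intro N d v hd
  rcases Nat.eq_zero_or_pos N with rfl | hN
  · simp
  · obtain ⟨i0, i1, i2⟩ := ALG_inv v N hN
    rcases Nat.mod_two_eq_zero_or_one N with h3 | h3
    · have := i1 h3
      split_ifs at this <;> omega
    · have := i2 h3
      split_ifs at this <;> omega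

end Pool.Agent.ADV
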