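import Pool.Agent.helper91.ADV.SpecL

/-!
# ADV, row FUB: product weights
-/

set_option autoImplicit false

namespace Pool.Agent.ADV

open Finset Pool.Agent.helper55.NT Pool.Agent.LNB Pool.Agent.NG Pool.Agent.PB Pool.Agent.PC

theorem FUB_swap {N L : ℕ} (Dn : (Fin N → Bool) → ℝ) (i : Fin L) (w : Fin L → Fin N → Bool) (y : Fin N → Bool) :
    wgt Dn (Function.update w i y) * Dn (w i) = wgt Dn w * Dn y := by
  unfold wgt
  rw [← Finset.mul_prod_erase Finset.univ (fun j => Dn (Function.update w i y j)) (Finset.mem_univ i),
    ← Finset.mul_prod_erase Finset.univ (fun j => Dn (w j)) (Finset.mem_univ i)]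
  have h : ∏ j ∈ Finset.univ.erase i, Dn (Function.update w i y j) = ∏ j ∈ Finset.univ.erase i, Dn (w j) := by
    refine Finset.prod_congr rfl fun j hj => ?_
    rw [Function.update_of_ne (Finset.ne_of_mem_erase hj)]
  rw [h, Function.update_self]
  ring

theorem FUB : FUB_stmt := by
  intro N L Dn hD
  refine ⟨fun w => Finset.prod_nonneg fun j _ => hD.1 _, ?_, ?_⟩
  · unfold wgt
    have h := Finset.prod_univ_sum (fun _ : Fin L => (Finset.univ : Finset (Fin N → Bool)))
      (fun _ x => Dn x)
    rw [Fintype.piFinset_univ] at h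
    rw [← h]
    simp only [hD.2, Finset.prod_const_one]
  · intro i φ
    set F : (Fin L → Fin N → Bool) × (Fin N → Bool) → ℝ :=
      fun p => wgt Dn p.1 * (Dn p.2 * φ (Function.update p.1 i p.2)) with hF
    have hinv : Function.Involutive (fun p : (Fin L → Fin N → Bool) × (Fin N → Bool) =>
        (Function.update p.1 i p.2, p.1 i)) := by
      rintro ⟨w, y⟩
      simp
    have h1 : ∑ w, wgt Dn w * ∑ y, Dn y * φ (Function.update w i y) = ∑ p, F p := by
      rw [Fintype.sum_prod_type]
      refine Finset.sum_congr rfl fun w _ => ?_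
      rw [Finset.mul_sum]
    rw [h1, ← Equiv.sum_comp (Function.Involutive.toPerm _ hinv) F, Fintype.sum_prod_type]
    refine Finset.sum_congr rfl fun w _ => ?_
    have h2 : ∀ y, F (Function.Involutive.toPerm _ hinv (w, y)) = wgt Dn w * φ w * Dn y := by
      intro y
      rw [hF]
      simp only [Function.Involutive.coe_toPerm, Function.update_idem, Function.update_eq_self]
      have := FUB_swap Dn i w y
      calc wgt Dn (Function.update w i y) * (Dn (w i) * φ w) =
            (wgt Dn (Function.update w i y) * Dn (w i)) * φ w := by ring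
        _ = wgt Dn w * φ w * Dn y := by rw [this]; ring
    simp only [h2]
    rw [← Finset.mul_sum, hD.2, mul_one]

end Pool.Agent.ADV
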